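import Mathlib
import Pool.Agent.TH157.Cub.Final

/-!
# Rational curves through all rational points of a smooth cubic surface over a finite field

For every finite field `k`, every smooth cubic surface `X` over `k` and every point `x` of `X`
with coordinates in `k` there is a non-constant morphism from the projective line over `k` to `X`,
defined over `k`, whose image contains `x`.
-/

set_option autoImplicit false

namespace Pool.Agent.Results.MP_4f7796_ag.AllPoints

open MvPolynomial Pool.Agent.TH157.Cub

universe u

/-- Every rational point of a smooth cubic surface over a finite field lies on a rational curve
defined over the finite field. -/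
theorem result (k : Type u) [Field k] [Finite k] (F : MvPolynomial (Fin 4) k)
    (hF : IsSmoothCubicSurface F) (x : Fin 4 → k) (hx : x ≠ 0) (hxF : eval x F = 0) :
    ∃ (e : ℕ) (φ : Fin 4 → MvPolynomial (Fin 2) k), IsRationalCurve F e φ ∧ PassesThrough φ x :=
  all_points F hF x hx hxF

end Pool.Agent.Results.MP_4f7796_ag.AllPoints
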